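import Pool.Agent.Lib.MP_8dd27d_al.Closed.Ring

set_option autoImplicit false

universe u

namespace Pool.Agent.Results.MP_8dd27d_al.CharTwo

open MvPolynomial Pool.Agent.Lib.MP_8dd27d_al

/-- Over every infinite field of characteristic two (in particular over every algebraically closed
field of characteristic two) there is a standard graded algebra that is universally Koszul and
not G-quadratic. -/
theorem result (K : Type u) [Field K] [CharP K 2] [Infinite K] :
    ∃ (n : ℕ) (I : Ideal (MvPolynomial (Fin n) K)),
      (∀ p ∈ I, ∀ d : ℕ, homogeneousComponent d p ∈ I) ∧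
      I ≤ Ideal.span (Set.range (X : Fin n → MvPolynomial (Fin n) K)) ^ 2 ∧
      UniversallyKoszul I ∧ ¬ GQuadratic I := by
  obtain ⟨a, ha⟩ := Closed.exists_good (K := K) Closed.sizes
  let e := (Fintype.equivFin (Closed.LL ![3002, 5004, 2001, 2002, 1000, 12009])).symm
  exact ⟨_, Closed.II a e, Closed.II_homog a e, Closed.II_le a e, Closed.II_uk a e ha.1,
    Closed.II_not_gq a e ha (by simp)⟩

end Pool.Agent.Results.MP_8dd27d_al.CharTwo
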